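import Pool.Agent.Lib.helper21.ML

set_option autoImplicit false

/-! An enumerable semimeasure that forces sudden drops of any semimeasure dominating it. -/

namespace Pool.Agent.H.MP_b38472_lc

open Pool.Agent.H.MP_d04dff_lc Pool.Agent.H.MP_fa2eca_lc Pool.Agent.H.MP_c57dc8_lc
open Pool.Agent.Lib.helper21.PR Pool.Agent.Lib.helper21.ML

attribute [local irreducible] Primrec Computable

section
variable {α : Type} [Primcodable α]

theorem reduce {p q : α → Prop} (hp : RE p) (hq : RE q) : ∃ p' q' : α → Prop, RE p' ∧ RE q' ∧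
    (∀ a, p' a → p a) ∧ (∀ a, q' a → q a) ∧ (∀ a, p' a → ¬ q' a) ∧
      ∀ a, p a ∨ q a → p' a ∨ q' a := by
  classical
  obtain ⟨N, h1, h2, -, h4⟩ := re_bool (r_pw hp).re
  obtain ⟨N', g1, g2, g3, g4⟩ := re_bool (r_pw hq).re
  refine ⟨fun a => ∃ t, N a t = true ∧ N' a t ≠ true,
    fun a => ∃ t, N' a t = true ∧ ∀ u < t, N a u ≠ true, RE.un (RE.re (by fun_prop)),
    RE.un (RE.re (by fun_prop)), fun a ⟨_, h, _⟩ => h2 _ _ h, fun a ⟨_, h, _⟩ => g2 _ _ h,
    fun a ⟨t, a1, a2⟩ ⟨u, b1, b2⟩ => a2 (g3 _ _ _ (not_lt.1 fun c => b2 t c a1) b1), fun a h => ?_⟩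
  by_cases c : ∃ t, N' a t = true
  · by_cases d : ∃ u < Nat.find c, N a u = true
    · exact let ⟨u, d1, d2⟩ := d; Or.inl ⟨u, d2, Nat.find_min c d1⟩
    · exact Or.inr ⟨_, Nat.find_spec c, fun u hu e => d ⟨u, hu, e⟩⟩
  · obtain ⟨t, ht⟩ := h4 a (h.resolve_right fun e => c (g4 a e))
    exact Or.inl ⟨t, ht, fun e => c ⟨t, e⟩⟩

def Run (S : α → Bool → α → Prop) (s : α) (x : Str) (t : α) : Prop := ∃ g : ℕ → α,
  g 0 = s ∧ g x.length = t ∧ ∀ i < x.length, S (g i) (x.getD i false) (g (i + 1))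

variable {S : α → Bool → α → Prop} {s : α}

omit [Primcodable α] in
theorem run_nil {t : α} : Run S s [] t ↔ t = s :=
  ⟨fun ⟨_, h1, h2, _⟩ => h2.symm.trans h1, fun h => ⟨fun _ => s, rfl, h.symm, by simp⟩⟩

omit [Primcodable α] in
theorem run_snoc {t : α} {x : Str} {b : Bool} :
    Run S s (x ++ [b]) t ↔ ∃ u, Run S s x u ∧ S u b t := by
  refine ⟨fun ⟨g, h1, h2, h3⟩ => ⟨_, ⟨g, h1, rfl, fun i hi => ?_⟩, ?_⟩,
    fun ⟨u, ⟨g, h1, h2, h3⟩, h4⟩ => ⟨fun i => if i ≤ x.length then g i else t, by simpa, by simp,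
      fun i hi => ?_⟩⟩
  · simpa [List.getD_eq_getElem?_getD, List.getElem?_append_left hi] using h3 i (by simp; omega)
  · simpa [← h2] using h3 x.length (by simp)
  · rcases (show i ≤ x.length by simp at hi; omega).eq_or_lt with rfl | c
    · simpa [h2]
    · rw [List.getD_append _ _ _ _ c]
      simpa only [c.le, Nat.succ_le_of_lt c, if_true] using h3 i c

theorem run_re (h : RE fun z : α × Bool × α => S z.1 z.2.1 z.2.2) :
    RE fun z : Str × α => Run S s z.1 z.2 := by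
  have : RE fun z : Str × α => pw (∃ L : List α, L.getD 0 s = s ∧ L.getD z.1.length s = z.2 ∧
      ∀ i < z.1.length, S (L.getD i s) (z.1.getD i false) (L.getD (i + 1) s)) := by fun_prop
  refine RE.un (this.re.of_eq fun z => ⟨fun ⟨L, h⟩ => ⟨fun i => L.getD i s, h⟩,
    fun ⟨g, h1, h2, h3⟩ => ⟨(List.range (z.1.length + 1)).map g, by simpa, by simpa,
      fun i hi => ?_⟩⟩)
  simpa [hi, hi.le, Nat.lt_succ_iff] using h3 i hi

end

theorem lim (z : ℕ → Str) (h : ∀ n, z n <+: z (n + 1)) (h' : ∀ n, n ≤ (z n).length) :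
    ∃ X, ∀ n, pre X (z n).length = z n := by
  have m : ∀ n k, z n <+: z (n + k) := fun n k => by
    induction k with
    | zero => rfl
    | succ k ih => exact ih.trans (h _)
  have e : ∀ n k i, i < (z n).length → (z n).getD i false = (z (n + k)).getD i false :=
    fun n k i hi => by
      obtain ⟨t, ht⟩ := m n k
      simp [← ht, List.getD_eq_getElem?_getD, List.getElem?_append_left hi]
  refine ⟨fun i => (z (i + 1)).getD i false, fun n =>
    List.ext_getElem (pre_len _ _) fun i _ hi => ?_⟩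
  have := (e _ n i (h' (i + 1))).trans ((add_comm n (i + 1) ▸ e n (i + 1) i hi).symm)
  simpa [pre, hi] using this

abbrev Cn := ℕ × ℕ × ℕ × ℕ
abbrev St := Str × Str × Cn × ℕ

def go (s : St) (b : Bool) : St :=
  if s.2.2.1.2.2.1 = 0 then
    (s.1 ++ [b], s.1 ++ [b], if b = true then
      (s.2.2.1.1, 0, 2 ^ (2 * s.2.2.1.1 + 6), 2 * s.2.2.1.1 + 6) else (s.2.2.1.1 + 1, 0, 0, 0), 0)
  else if s.2.2.2 = 0 then (s.1 ++ [b], s.2.1, s.2.2.1, 2 * s.2.2.1.1 + 4)
  else if s.2.2.2 = 1 then (s.1 ++ [b], s.1 ++ [b],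
    (s.2.2.1.1, s.2.2.1.2.1, s.2.2.1.2.2.1, s.2.2.1.2.2.2 + 1), 0)
  else (s.1 ++ [b], s.2.1, s.2.2.1, s.2.2.2 - 1)

variable (A B : Str × Cn → Prop)

def Step (s : St) (b : Bool) (t : St) : Prop :=
  ((s.2.2.1.2.2.1 ≠ 0 ∧ (s.2.2.2 = 0 ↔ b = false)) ∧
    ((s.2.2.2 = 0 ∧ A (s.2.1, s.2.2.1) ∧ t = (s.1 ++ [b], s.1 ++ [b],
      (s.2.2.1.1, s.2.2.1.2.1 + 1, s.2.2.1.2.2), 0)) ∨ (B (s.2.1, s.2.2.1) ∧
      t = (s.1 ++ [b], s.1 ++ [b],
        (s.2.2.1.1, s.2.2.1.2.1, s.2.2.1.2.2.1 + 1, s.2.2.1.2.2.2), 0)))) ∨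
  (¬ (s.2.2.1.2.2.1 ≠ 0 ∧ (s.2.2.2 = 0 ↔ b = false)) ∧ t = go s b)

def nb (i r : ℕ) : ℕ := (2 ^ (2 * i + 5) - 1) ^ r

noncomputable def be (i r : ℕ) : ℝ := (2 - 1 / 2 ^ (2 * i + 4)) ^ r

theorem be_eq (i r : ℕ) : (nb i r : ℝ) / 2 ^ ((2 * i + 4) * r) = be i r := by
  rw [nb, be, Nat.cast_pow, Nat.cast_sub Nat.one_le_two_pow, pow_mul, ← div_pow]
  congr 1
  push_cast
  rw [pow_succ _ (2 * i + 4)]
  field_simp

theorem be_pos (i r : ℕ) : 0 < be i r :=
  pow_pos (sub_pos.2 (((div_le_one (by positivity)).2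
    (one_le_pow₀ one_le_two)).trans_lt one_lt_two)) _

open Classical in
noncomputable def val (s : St) : ℝ := be s.2.2.1.1 s.2.2.1.2.1 /
  2 ^ (s.1.length + if B (s.2.1, s.2.2.1) then 0 else s.2.2.2)

abbrev R := Run (Step A B) ([], [], (0, 0, 0, 0), 0)

open Classical in
noncomputable def nu (x : Str) : ℝ := if h : ∃ s, R A B x s then val B h.choose else 0

variable {A B}

theorem val_pos (s : St) : 0 < val B s := div_pos (be_pos _ _) (by positivity)

theorem uniq (h : ∀ a, A a → ¬ B a) (x : Str) : ∀ s t, R A B x s → R A B x t → s = t := by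
  induction x using List.reverseRecOn with
  | nil => exact fun s t a b => (run_nil.1 a).trans (run_nil.1 b).symm
  | append_singleton x b ih =>
    intro s t a c
    obtain ⟨u, a1, a2⟩ := run_snoc.1 a
    obtain ⟨v, c1, c2⟩ := run_snoc.1 c
    obtain rfl := ih _ _ a1 c1
    unfold Step at a2 c2
    have := h (u.2.1, u.2.2.1)
    grind

theorem nu_eq (h : ∀ a, A a → ¬ B a) {x : Str} {s : St} (hs : R A B x s) : nu A B x = val B s := by
  rw [nu, dif_pos ⟨s, hs⟩, uniq h x _ _ (Exists.choose_spec (p := R A B x) ⟨s, hs⟩) hs]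

theorem inv (x : Str) : ∀ s, R A B x s →
    s.2.2.1.2.2.1 = 0 → s.2.2.2 = 0 ∧ s.2.2.1.2.1 = 0 := by
  induction x using List.reverseRecOn with
  | nil => intro s a _; simp [run_nil.1 a]
  | append_singleton x b ih =>
    intro s a
    obtain ⟨u, -, a2⟩ := run_snoc.1 a
    unfold Step go at a2
    grind

theorem loc (h : ∀ a, A a → ¬ B a) (s : St)
    (hs : s.2.2.1.2.2.1 = 0 → s.2.2.2 = 0 ∧ s.2.2.1.2.1 = 0) : ∃ p q : ℝ, 0 ≤ p ∧ 0 ≤ q ∧
    p + q ≤ val B s ∧ (∀ t, Step A B s false t → val B t ≤ p) ∧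
      ∀ t, Step A B s true t → val B t ≤ q := by
  classical
  obtain ⟨x, z, ⟨i, r, v, w⟩, d⟩ := s
  have h0 := be_pos i r
  have h1 := h (z, i, r, v, w)
  by_cases c : B (z, i, r, v, w) ∨ v = 0
  · refine ⟨be i r / 2 ^ (x.length + 1), be i r / 2 ^ (x.length + 1), by positivity, by positivity,
      le_of_eq ?_, fun t ht => le_of_eq ?_, fun t ht => le_of_eq ?_⟩
    · have : (if B (z, i, r, v, w) then 0 else d) = 0 := by grind
      simp only [val, this]
      ring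
    · unfold Step go at ht
      rcases ht with ⟨a, ⟨_, b, rfl⟩ | ⟨_, rfl⟩⟩ | ⟨a, rfl⟩
      · grind
      · simp [val]
      · split_ifs <;> simp_all [val, be]
    · unfold Step go at ht
      rcases ht with ⟨a, ⟨_, b, rfl⟩ | ⟨_, rfl⟩⟩ | ⟨a, rfl⟩
      · grind
      · simp [val]
      · split_ifs <;> simp_all [val, be]
  · obtain ⟨c1, c2⟩ := not_or.1 c
    rcases d with _ | d
    · refine ⟨be i (r + 1) / 2 ^ (x.length + 1), be i r / 2 ^ (x.length + 1 + (2 * i + 4)),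
        (div_pos (be_pos _ _) (by positivity)).le, by positivity, le_of_eq ?_,
        fun t ht => le_of_eq ?_, fun t ht => le_of_eq ?_⟩
      · simp only [val, be, ite_self, pow_succ _ r, pow_add _ (x.length + 1)]
        field_simp
        ring
      · unfold Step at ht
        rcases ht with ⟨a, ⟨_, b, rfl⟩ | ⟨_, rfl⟩⟩ | ⟨a, rfl⟩ <;> simp_all [val]
      · unfold Step go at ht
        rcases ht with ⟨a, ⟨_, b, rfl⟩ | ⟨_, rfl⟩⟩ | ⟨a, rfl⟩ <;> simp_all [val]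
    · refine ⟨be i r / 2 ^ (x.length + (d + 1)), 0, by positivity, le_rfl, by simp [val, c1],
        fun t ht => le_of_eq ?_, fun t ht => ?_⟩
      · unfold Step go at ht
        rcases ht with ⟨a, ⟨_, b, rfl⟩ | ⟨_, rfl⟩⟩ | ⟨a, rfl⟩
        · simp at a
        · simp at a
        · split_ifs <;> simp_all [val, add_assoc, add_comm 1 d]
      · unfold Step at ht
        simp_all

theorem semi_nu (h : ∀ a, A a → ¬ B a) (hA : RE A) (hB : RE B) : Semi (nu A B) := by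
  have h0 : ∀ x, 0 ≤ nu A B x := fun x => by
    unfold nu
    split_ifs
    exacts [(val_pos _).le, le_rfl]
  refine ⟨h0, by simp [nu_eq h (run_nil.2 rfl), val, be], fun x => ?_, ?_⟩
  · by_cases c : ∃ s, R A B x s
    · obtain ⟨s, hs⟩ := c
      obtain ⟨p, q, a1, a2, a3, a4, a5⟩ := loc h s (inv x s hs)
      have : ∀ b u, 0 ≤ u → (∀ t, Step A B s b t → val B t ≤ u) → nu A B (x ++ [b]) ≤ u := by
        intro b u b1 b2
        by_cases d : ∃ t, R A B (x ++ [b]) t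
        · obtain ⟨t, ht⟩ := d
          obtain ⟨v, c1, c2⟩ := run_snoc.1 ht
          exact (nu_eq h ht).trans_le (b2 t (uniq h x _ _ c1 hs ▸ c2))
        · rwa [nu, dif_neg d]
      exact (add_le_add (this _ _ a1 a4) (this _ _ a2 a5)).trans (a3.trans_eq (nu_eq h hs).symm)
    · have : ∀ b, nu A B (x ++ [b]) = 0 := fun b =>
        dif_neg fun ⟨t, ht⟩ => let ⟨v, c1, _⟩ := run_snoc.1 ht; c ⟨v, c1⟩
      simpa [this] using h0 x
  · have h1 : RE fun z : St × Bool × St => Step A B z.1 z.2.1 z.2.2 :=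
      RE.un (RE.re (by unfold Step go; fun_prop))
    have h2 : RE fun z : Str × St => R A B z.1 z.2 := run_re h1
    have h3 : RE fun z : Str × ℕ × ℕ => pw (∃ s : St, R A B z.1 s ∧ ∃ e,
        (e = s.2.2.2 ∨ (B (s.2.1, s.2.2.1) ∧ e = 0)) ∧
        z.2.1 * 2 ^ ((2 * s.2.2.1.1 + 4) * s.2.2.1.2.1 + (s.1.length + e)) <
          nb s.2.2.1.1 s.2.2.1.2.1 * 2 ^ z.2.2) := by
      generalize R A B = P at h2 ⊢
      unfold nb
      fun_prop
    have key : ∀ i r a k e : ℕ, a * 2 ^ ((2 * i + 4) * r + e) < nb i r * 2 ^ k ↔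
        (a : ℝ) / 2 ^ k < be i r / 2 ^ e := fun i r a k e => by
      rw [← be_eq, div_div, ← pow_add, div_lt_div_iff₀ (by positivity) (by positivity)]
      norm_cast
    refine h3.re.of_eq fun ⟨x, a, k⟩ => ⟨fun ⟨s, hs, e, a1, a2⟩ => ?_, fun hx => ?_⟩
    · rw [nu_eq h hs]
      refine ((key _ _ _ _ _).1 a2).trans_le (div_le_div_of_nonneg_left (be_pos _ _).le
        (by positivity) (pow_le_pow_right₀ one_le_two ?_))
      grind
    · by_cases c : ∃ s, R A B x s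
      · obtain ⟨s, hs⟩ := c
        rw [nu_eq h hs] at hx
        exact ⟨s, hs, _, by grind, (key _ _ _ _ _).2 hx⟩
      · rw [nu, dif_neg c] at hx
        exact absurd hx (not_lt.2 (by positivity))

end Pool.Agent.H.MP_b38472_lc
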