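import Pool.Agent.H.MP_b38472_lc.A

set_option autoImplicit false

/-! The analysis of the game. -/

namespace Pool.Agent.H.MP_b38472_lc

open Pool.Agent.H.MP_d04dff_lc Pool.Agent.H.MP_fa2eca_lc Pool.Agent.H.MP_c57dc8_lc
open Pool.Agent.Lib.helper21.PR Pool.Agent.Lib.helper21.ML

attribute [local irreducible] Primrec Computable

def tn (c : Cn) : ℕ :=
  nb c.1 c.2.1 * ((8 + (2 ^ (2 * c.1 + 4) - c.2.1)) * 2 ^ c.2.2.2 - 8 * c.2.2.1)

def te (c : Cn) : ℕ := (2 * c.1 + 4) * c.2.1 + (c.2.2.2 + (3 + c.1))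

noncomputable def Tr (c : Cn) : ℝ := be c.1 c.2.1 / 2 ^ c.1 *
  (1 + (2 ^ (2 * c.1 + 4) - c.2.1 : ℕ) / 8 - c.2.2.1 / 2 ^ c.2.2.2)

theorem tr_aux (c : Cn) (m : ℕ) : ((nb c.1 c.2.1 * m : ℕ) : ℝ) / 2 ^ te c =
    be c.1 c.2.1 / 2 ^ c.1 * (m / (8 * 2 ^ c.2.2.2)) := by
  rw [← be_eq, te, pow_add, pow_add, pow_add]
  push_cast
  field_simp
  norm_num

theorem tr_le (c : Cn) : Tr c ≤ tn c / 2 ^ te c := by
  rw [tn, tr_aux, Tr]
  refine mul_le_mul_of_nonneg_left ?_ (div_pos (be_pos _ _) (by positivity)).le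
  rw [le_div_iff₀ (by positivity)]
  have : ∀ a b : ℕ, (a : ℝ) - b ≤ (a - b : ℕ) := fun a b => by
    rw [sub_le_iff_le_add]; exact_mod_cast le_tsub_add
  refine le_trans (le_of_eq ?_) (this _ _)
  push_cast
  field_simp

theorem tr_eq {c : Cn} (h : tn c ≠ 0) : tn c / 2 ^ te c = Tr c := by
  have := Nat.sub_ne_zero_iff_lt.1 (right_ne_zero_of_mul h)
  rw [tn, tr_aux, Tr, Nat.cast_sub this.le]
  congr 1
  push_cast
  field_simp

variable (M : Str → ℝ)

def Big (q : Str × Cn) : Prop := (tn q.2 : ℝ) / 2 ^ (te q.2 + q.1.length) < M q.1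

def Obs (q : Str × Cn) : Prop := (nb q.2.1 q.2.2.1 : ℝ) /
  2 ^ ((2 * q.2.1 + 4) * q.2.2.1 + (q.2.1 + q.1.length + 2)) < M (q.1 ++ [true])

def child (q : Str × Cn) : Str × Cn :=
  (q.1 ++ true :: List.replicate (2 * q.2.1 + 4) false, q.2.1, q.2.2.1, q.2.2.2.1, q.2.2.2.2 + 1)

variable {M}

theorem Big.lt {q : Str × Cn} (h : Big M q) : Tr q.2 < M q.1 * 2 ^ q.1.length := by
  rw [Big, pow_add, ← div_div, div_lt_iff₀ (by positivity)] at h
  exact (tr_le _).trans_lt h

theorem obs_iff {q : Str × Cn} :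
    Obs M q ↔ be q.2.1 q.2.2.1 / 2 ^ q.2.1 < M (q.1 ++ [true]) * 2 ^ q.1.length * 4 := by
  rw [Obs, pow_add, ← div_div, be_eq, pow_add, pow_add, ← div_div, ← div_div,
    div_lt_iff₀ (by positivity), div_lt_iff₀ (by positivity), mul_right_comm]
  norm_num

theorem game (hM : Semi M) (hU : ∀ N, Semi N → ∃ c > 0, ∀ x, c * N x ≤ M x) :
    ∃ (G : Str × Cn → Prop) (C : ℝ), (∃ q, G q) ∧ (∀ q, G q → M q.1 * 2 ^ q.1.length ≤ C) ∧
      ∀ q, G q → ∃ q', G q' ∧ ∃ y, q.1 <+: y ∧ y ++ [true] <+: q'.1 ∧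
        M (y ++ [true]) ≤ M y / 4 := by
  have l0 : Low M := RE.un hM.2.2.2
  have l1 : RE (Obs M) := r_comp (f := fun q : Str × Cn => (q.1 ++ [true], nb q.2.1 q.2.2.1,
    (2 * q.2.1 + 4) * q.2.2.1 + (q.2.1 + q.1.length + 2))) l0 (by unfold nb; fun_prop)
  have l2 : RE (Big M) := r_comp (f := fun q : Str × Cn => (q.1, tn q.2, te q.2 + q.1.length))
    l0 (by unfold tn te nb; fun_prop)
  obtain ⟨A, B, hA, hB, a1, a2, h, a3⟩ := reduce l1 (r_comp (f := child) l2
    (by unfold child; fun_prop))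
  obtain ⟨c, hc, hd⟩ := hU _ (semi_nu h hA hB)
  obtain ⟨i, hi⟩ := pow_unbounded_of_one_lt (1 / c) (one_lt_two (α := ℝ))
  rw [div_lt_iff₀ hc, ← div_lt_iff₀' (by positivity)] at hi
  let G : Str × Cn → Prop := fun q =>
    q.2.1 = i ∧ 2 ^ (2 * i + 6) ≤ q.2.2.2.1 ∧ R A B q.1 (q.1, q.1, q.2, 0) ∧ ¬ Big M q
  have f1 : ∀ z r v w, G (z, i, r, v, w) → be i r / 2 ^ i ≤ M z * 2 ^ z.length ∧
      M z * 2 ^ z.length ≤ Tr (i, r, v, w) ∧ r < 2 ^ (2 * i + 4) ∧
      v < (8 + 2 ^ (2 * i + 4)) * 2 ^ w := by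
    rintro z r v w ⟨-, b1, b2, b3⟩
    have b4 : be i r / 2 ^ i ≤ M z * 2 ^ z.length := by
      have := (mul_le_mul_of_nonneg_right hi.le (val_pos _).le).trans (nu_eq h b2 ▸ hd z)
      simp only [val, ite_self, add_zero] at this
      rw [← div_le_iff₀ (by positivity)]
      exact le_of_eq_of_le (by ring) this
    have b0 : 0 < be i r / 2 ^ i := div_pos (be_pos _ _) (by positivity)
    rw [Big, not_lt, pow_add, ← div_div, le_div_iff₀ (by positivity)] at b3
    have b5 : tn (i, r, v, w) ≠ 0 := fun e => by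
      rw [e] at b3
      simp only [Nat.cast_zero, zero_div] at b3
      linarith
    rw [tr_eq b5] at b3
    have b6 := Nat.sub_ne_zero_iff_lt.1 (right_ne_zero_of_mul b5)
    refine ⟨b4, b3, not_le.1 fun e => ?_, ?_⟩
    · have b7 := b4.trans b3
      simp only [Tr, Nat.sub_eq_zero_of_le e, Nat.cast_zero, zero_div, add_zero] at b7
      have : (0 : ℝ) < v / 2 ^ w :=
        div_pos (Nat.cast_pos.2 (lt_of_lt_of_le (by positivity) b1)) (by positivity)
      nlinarith
    · have := Nat.mul_le_mul_right (2 ^ w) (Nat.add_le_add_left (Nat.sub_le (2 ^ (2 * i + 4)) r) 8)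
      simp only at b6
      omega
  have f2 : ∀ z r v w, G (z, i, r, v, w) →
      (G (child (z, i, r, v, w)) ∧ M (z ++ [true]) ≤ M z / 4) ∨
      ∃ z' r' v', z <+: z' ∧ r' + v' = r + v + 1 ∧ G (z', i, r', v', w) := by
    intro z r v w hq
    obtain ⟨b1, b2, b3, -⟩ := f1 _ _ _ _ hq
    obtain ⟨-, b4, b5, -⟩ := hq
    have b0 : 0 < be i r / 2 ^ i := div_pos (be_pos _ _) (by positivity)
    have v0 : v ≠ 0 := (lt_of_lt_of_le (by positivity) b4).ne'
    have s1 : ∀ j < 2 * i + 4, R A B (z ++ true :: List.replicate j false)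
        (z ++ true :: List.replicate j false, z, (i, r, v, w), 2 * i + 4 - j) := fun j hj => by
      induction j with
      | zero => exact run_snoc.2 ⟨_, b5, Or.inr (by simp [go, v0])⟩
      | succ j ih =>
        rw [List.replicate_succ', ← List.cons_append, ← List.append_assoc]
        exact run_snoc.2 ⟨_, ih (by omega), Or.inr ⟨by simp; omega, by
          simp only [go]; rw [if_neg v0, if_neg (by omega), if_neg (by omega)]; rfl⟩⟩
    have s2 : R A B (child (z, i, r, v, w)).1 ((child (z, i, r, v, w)).1,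
        (child (z, i, r, v, w)).1, (child (z, i, r, v, w)).2, 0) := by
      simp only [child]
      rw [List.replicate_succ', ← List.cons_append, ← List.append_assoc]
      exact run_snoc.2 ⟨_, s1 _ (by omega), Or.inr ⟨by simp, by simp [go, v0]⟩⟩
    have m0 := mul_le_mul_of_nonneg_right (hM.2.2.1 z) (show (0 : ℝ) ≤ 2 ^ z.length by positivity)
    have k1 : (16 : ℝ) ≤ 2 ^ (2 * i + 4) := by
      rw [pow_add]; nlinarith [one_le_pow₀ (n := 2 * i) (one_le_two (α := ℝ))]
    have k2 : ((2 ^ (2 * i + 4) - r : ℕ) : ℝ) ≤ 2 ^ (2 * i + 4) := by exact_mod_cast Nat.sub_le _ _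
    by_cases c : A (z, i, r, v, w) ∨ B (z, i, r, v, w)
    swap
    · obtain ⟨c1, c2⟩ := not_or.1 fun e => c (a3 _ e)
      rw [obs_iff, not_lt] at c1
      refine Or.inl ⟨⟨rfl, b4, s2, c2⟩, ?_⟩
      exact le_of_mul_le_mul_right (a := 2 ^ z.length) (by linarith) (by positivity)
    refine Or.inr ?_
    rcases c with c | c
    · refine ⟨z ++ [false], r + 1, v, List.prefix_append _ _, by omega, rfl, b4,
        run_snoc.2 ⟨_, b5, Or.inl ⟨by simp [v0], Or.inl ⟨rfl, c, rfl⟩⟩⟩, fun e => ?_⟩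
      have c1 := obs_iff.1 (a1 _ c)
      have c2 := e.lt
      have c3 : ((2 ^ (2 * i + 4) - r : ℕ) : ℝ) = (2 ^ (2 * i + 4) - (r + 1) : ℕ) + 1 := by
        exact_mod_cast (by omega)
      simp only [Tr, List.length_append, List.length_singleton, pow_succ _ z.length] at b2 c1 c2
      rw [be, pow_succ, ← be, mul_div_right_comm] at c2
      rw [c3] at b2 k2
      have c4 : (0 : ℝ) ≤ v / 2 ^ w := by positivity
      generalize ((2 ^ (2 * i + 4) - (r + 1) : ℕ) : ℝ) = g, (v : ℝ) / 2 ^ w = d,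
        be i r / 2 ^ i = u, (2 : ℝ) ^ (2 * i + 4) = K at *
      have c5 : 1 / K * (1 + g / 8 - d) ≤ 1 / 4 := by
        rw [one_div_mul_eq_div, div_le_iff₀ (by linarith)]; linarith
      nlinarith
    · by_contra! e
      have p1 : ∀ y, z <+: y → R A B y (y, y, (i, r, v + 1, w), 0) →
          Tr (i, r, v + 1, w) < M y * 2 ^ y.length := fun y d1 d2 => Big.lt (q := (y, _))
        (not_not.1 fun d3 => e y r (v + 1) d1 (by omega) ⟨rfl, Nat.le_succ_of_le b4, d2, d3⟩)
      have p2 : ∀ d j, j + d = 2 * i + 4 → Tr (i, r, v + 1, w) + (Tr (i, r, v, w + 1) -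
          Tr (i, r, v + 1, w)) / 2 ^ d ≤
          M (z ++ true :: List.replicate j false) * 2 ^ (z.length + (j + 1)) := fun d => by
        induction d with
        | zero =>
          rintro j rfl
          simpa [child] using (a2 _ c).lt.le
        | succ d ih =>
          intro j hj
          have d1 := ih (j + 1) (by omega)
          have d2 := p1 (z ++ true :: List.replicate j false ++ [true]) (by simp)
            (run_snoc.2 ⟨_, s1 j (by omega), Or.inl ⟨by simp [v0]; omega, Or.inr ⟨c, rfl⟩⟩⟩)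
          have d3 := mul_le_mul_of_nonneg_right (hM.2.2.1 (z ++ true :: List.replicate j false))
            (show (0 : ℝ) ≤ 2 ^ (z.length + (j + 1)) by positivity)
          rw [List.replicate_succ', ← List.cons_append, ← List.append_assoc, ← add_assoc,
            pow_succ] at d1
          rw [List.length_append, List.length_append, List.length_cons, List.length_replicate,
            List.length_singleton, pow_succ] at d2
          rw [pow_succ, ← div_div]
          linarith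
      have p3 := p2 _ 0 (zero_add _)
      have p4 := p1 (z ++ [false]) (List.prefix_append _ _)
        (run_snoc.2 ⟨_, b5, Or.inl ⟨by simp [v0], Or.inr ⟨c, rfl⟩⟩⟩)
      have k3 : (2 : ℝ) ^ (2 * i + 4) * 4 ≤ v := by
        have : ((2 ^ (2 * i + 6) : ℕ) : ℝ) ≤ v := Nat.cast_le.2 b4
        push_cast at this
        rw [show 2 * i + 6 = 2 * i + 4 + 2 from rfl, pow_add] at this
        linarith
      simp only [Tr, List.length_append, List.length_singleton, pow_succ _ z.length,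
        List.replicate_zero, zero_add, pow_succ _ w, Nat.cast_add, Nat.cast_one, add_div,
        ← div_div] at b2 p3 p4
      have c4 : (0 : ℝ) < 1 / 2 ^ w := by positivity
      have c5 : (v : ℝ) / 2 ^ w = v * (1 / 2 ^ w) := by ring
      rw [c5] at b2 p3 p4
      generalize ((2 ^ (2 * i + 4) - r : ℕ) : ℝ) = g, (1 : ℝ) / 2 ^ w = d,
        be i r / 2 ^ i = u, (2 : ℝ) ^ (2 * i + 4) = K at *
      have c6 : 2 * (u * d) ≤ (u * (1 + g / 8 - v * d / 2) - u * (1 + g / 8 - (v * d + d))) / K := by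
        rw [le_div_iff₀ (by linarith)]
        nlinarith [mul_pos b0 c4]
      nlinarith
  have f3 : ∀ n z r v w, G (z, i, r, v, w) →
      2 ^ (2 * i + 4) + (8 + 2 ^ (2 * i + 4)) * 2 ^ w ≤ r + v + n → ∃ q', G q' ∧ ∃ y, z <+: y ∧
        y ++ [true] <+: q'.1 ∧ M (y ++ [true]) ≤ M y / 4 := fun n => by
    induction n with
    | zero =>
      intro z r v w b1 b2
      have := f1 _ _ _ _ b1
      omega
    | succ n ih =>
      intro z r v w b1 b2
      rcases f2 _ _ _ _ b1 with ⟨c1, c2⟩ | ⟨z', r', v', c1, c2, c3⟩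
      · exact ⟨_, c1, z, List.prefix_rfl, by simp [child], c2⟩
      · obtain ⟨q, d1, y, d2, d3⟩ := ih _ _ _ _ c3 (by omega)
        exact ⟨q, d1, y, c1.trans d2, d3⟩
  refine ⟨G, 2 ^ 2 ^ (2 * i + 4) * (1 + 2 ^ (2 * i + 4)),
    ⟨(List.replicate i false ++ [true], i, 0, 2 ^ (2 * i + 6), 2 * i + 6), rfl, le_rfl, ?_,
      fun e => ?_⟩, ?_, ?_⟩
  · have : ∀ j, R A B (List.replicate j false)
        (List.replicate j false, List.replicate j false, (j, 0, 0, 0), 0) := fun j => by
      induction j with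
      | zero => exact run_nil.2 rfl
      | succ j ih =>
        rw [List.replicate_succ']
        exact run_snoc.2 ⟨_, ih, Or.inr (by simp [go])⟩
    exact run_snoc.2 ⟨_, this i, Or.inr (by simp [go])⟩
  · have c1 := e.lt
    have c2 := (Finset.single_le_sum (fun x _ => hM.1 x)
      (mem_B.2 (rfl : (List.replicate i false ++ [true]).length = _))).trans (hM.tot _)
    simp only [Tr, be, List.length_append, List.length_replicate, List.length_singleton] at c1
    have c3 := mul_le_mul_of_nonneg_right c2 (show (0 : ℝ) ≤ 2 ^ (i + 1) by positivity)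
    refine (c1.trans_le c3).ne ?_
    rw [Nat.sub_zero]
    push_cast
    field_simp
    ring
  · rintro ⟨z, j, r, v, w⟩ hq
    obtain rfl : j = i := hq.1
    obtain ⟨-, b2, b3, -⟩ := f1 _ _ _ _ hq
    refine b2.trans (mul_le_mul ((div_le_self (be_pos _ _).le (one_le_pow₀ one_le_two)).trans
      ((pow_le_pow_left₀ (by simpa [be] using (be_pos j 1).le) (sub_le_self _ (by positivity))
        _).trans (pow_le_pow_right₀ one_le_two b3.le))) ?_ ?_ (by positivity))
    · have k2 : ((2 ^ (2 * j + 4) - r : ℕ) : ℝ) ≤ 2 ^ (2 * j + 4) := by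
        exact_mod_cast Nat.sub_le _ _
      have : (0 : ℝ) ≤ v / 2 ^ w := by positivity
      have : (0 : ℝ) ≤ 2 ^ (2 * j + 4) := by positivity
      simp only
      linarith
    · exact (mul_nonneg_iff_of_pos_left (div_pos (be_pos _ _) (by positivity))).1
        ((mul_nonneg (hM.1 _) (by positivity)).trans b2)
  · rintro ⟨z, j, r, v, w⟩ hq
    obtain rfl : j = i := hq.1
    exact f3 _ _ _ _ _ hq (Nat.le_add_left _ _)

end Pool.Agent.H.MP_b38472_lc
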